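import Pool.Agent.Q16.EI.Col

/-!
Infinitely many members of the sequence are powers of the same non-power.
-/

set_option autoImplicit false

namespace Pool.Agent.Q16.EI

/-- All members of the configuration of `x` have the colour `χ`. -/
structure Mono (x : ℕ → ℕ) (χ : Bool) : Prop where
  mono : StrictMono x
  two : ∀ i, 2 ≤ x i
  col : ∀ (i : ℕ) (F : Finset ℕ), (∀ j ∈ F, i < j) → c (x i ^ ∏ j ∈ F, x j) = χ

lemma Mono.self {x : ℕ → ℕ} {χ : Bool} (h : Mono x χ) (i : ℕ) : c (x i) = χ := by
  have := h.col i ∅ (by simp)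
  simpa using this

lemma Mono.le {x : ℕ → ℕ} {χ : Bool} (h : Mono x χ) (i : ℕ) : i ≤ x i := h.mono.le_apply

lemma pig {S : Set ℕ} (hS : S.Infinite) {β : Type} [Finite β] (f : ℕ → β) :
    ∃ b, {i ∈ S | f i = b}.Infinite := by
  by_contra hc
  push Not at hc
  apply hS
  have e : S = ⋃ b, {i ∈ S | f i = b} := by
    ext i
    simp
  rw [e]
  exact Set.finite_iUnion hc

lemma self_eq {x : ℕ} (hx : 2 ≤ x) {A : ℕ} (h : root x = A) : x = A ^ ex x := by
  rw [← h, root_pow (by omega)]

/-- If a number close to `u * A ^ M` has the odd part `o`, then `o` is near `u * A ^ M'`. -/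
lemma near_step {A u M t o v : ℕ} {s : ℤ} (hA : 2 ≤ A) (hs : s ≠ 0) (nu : ¬ A ∣ u)
    (gu : g u ≤ M) (hs16 : 16 * |s| ≤ M) (ht : (t : ℤ) = u * (A : ℤ) ^ M + s)
    (ho : t = o * A ^ v) (hno : ¬ A ∣ o) : ∃ M' r', Near A o u M' r' := by
  obtain ⟨q, w, hq, nq⟩ := val_exists (n := s.natAbs) hA (by omega)
  obtain ⟨s', hs', hs'q⟩ : ∃ s' : ℤ, s = s' * (A : ℤ) ^ w ∧ s'.natAbs = q := by
    rcases Int.natAbs_eq s with h | h
    · refine ⟨q, ?_, by simp⟩
      rw [h, hq]; push_cast; ring
    · refine ⟨-q, ?_, by simp⟩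
      rw [h, hq]; push_cast; ring
  have ns' : ¬ (A : ℤ) ∣ s' := by
    intro h
    apply nq
    rw [← hs'q]
    exact Int.natCast_dvd.1 h
  have hs0 : s' ≠ 0 := by
    rintro rfl
    exact ns' (dvd_zero _)
  have hwlt : w < A ^ w := Nat.lt_pow_self hA
  have hq1 := pos_of_not_dvd nq
  have hAw : A ^ w ≤ s.natAbs := by
    rw [hq]
    exact Nat.le_mul_of_pos_left _ hq1
  have habs : |s| = s.natAbs := Int.abs_eq_natAbs s
  have habs' : |s'| = s'.natAbs := Int.abs_eq_natAbs s'
  have hqs : q ≤ s.natAbs := by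
    rw [hq]
    exact Nat.le_mul_of_pos_right _ (by positivity)
  have h16 : 16 * s.natAbs ≤ M := by
    rw [habs] at hs16
    exact_mod_cast hs16
  obtain ⟨M', rfl⟩ := Nat.exists_eq_add_of_le (show w ≤ M by omega)
  have g16 := sixteen_mul_le_g u
  have ht2 : (t : ℤ) = (u * (A : ℤ) ^ M' + s') * (A : ℤ) ^ w := by
    rw [ht, hs', pow_add]; ring
  have hApos : (0 : ℤ) < (A : ℤ) ^ w := by positivity
  have htpos : (1 : ℤ) ≤ t := by
    have : 1 ≤ t := by
      rw [ho]
      exact Nat.mul_pos (pos_of_not_dvd hno) (by positivity)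
    exact_mod_cast this
  have hzpos : (0 : ℤ) < u * (A : ℤ) ^ M' + s' := by
    by_contra hc
    push Not at hc
    nlinarith
  obtain ⟨z, hz⟩ := Int.eq_ofNat_of_zero_le hzpos.le
  have ht3 : z * A ^ w = o * A ^ v := by
    rw [hz] at ht2
    have : ((z * A ^ w : ℕ) : ℤ) = ((o * A ^ v : ℕ) : ℤ) := by
      rw [← ho, ht2]; push_cast; ring
    exact_mod_cast this
  have nz : ¬ A ∣ z := by
    intro h
    apply ns'
    have h1 : (A : ℤ) ∣ u * (A : ℤ) ^ M' + s' := by
      rw [hz]
      exact_mod_cast h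
    have h2 : (A : ℤ) ∣ u * (A : ℤ) ^ M' :=
      Dvd.dvd.mul_left (dvd_pow_self _ (by omega)) _
    exact (dvd_add_right h2).1 h1
  have hzo := (val_unique hA nz hno ht3).1
  refine ⟨M', s', ?_, hs0, nu, by omega, ?_⟩
  · rw [← hzo]
    rw [hz]
  · rw [habs', hs'q]
    omega

theorem caseA {x : ℕ → ℕ} {χ : Bool} (hM : Mono x χ) {A : ℕ} (hA : 2 ≤ A) (eA : ex A = 1)
    (hI : {i | root (x i) = A}.Infinite) : False := by
  have dec : ∀ i, ∃ o v, ex (x i) = o * A ^ v ∧ ¬ A ∣ o :=
    fun i => val_exists hA (ex_pos (hM.two i))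
  choose o v hov hno using dec
  obtain ⟨⟨b1, b2⟩, hS⟩ := pig hI (fun i => (decide (g (o i) ≤ v i), dep A (o i)))
  have hS1 : ∀ i ∈ {i ∈ {i | root (x i) = A} | (decide (g (o i) ≤ v i), dep A (o i)) = (b1, b2)},
      root (x i) = A ∧ decide (g (o i) ≤ v i) = b1 ∧ dep A (o i) = b2 := by
    intro i hi
    have h1 := hi.1
    have h2 := hi.2
    simp only [Prod.mk.injEq] at h2
    exact ⟨h1, h2.1, h2.2⟩
  generalize hSd : {i ∈ {i | root (x i) = A} |
    (decide (g (o i) ≤ v i), dep A (o i)) = (b1, b2)} = S at hS hS1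
  obtain ⟨i, hi⟩ := hS.nonempty
  obtain ⟨ri, di, pi⟩ := hS1 i hi
  have xi := self_eq (hM.two i) ri
  -- large members
  have large : ∀ W : ℕ, ∀ k, root (x k) = A → A ^ W < k → W < ex (x k) := by
    intro W k rk hk
    by_contra hc
    have h1 : x k ≤ A ^ W := by
      rw [self_eq (hM.two k) rk]
      exact Nat.pow_le_pow_right (by omega) (by omega)
    have := hM.le k
    omega
  cases b1 with
  | true =>
    have di' : g (o i) ≤ v i := by simpa using di
    obtain ⟨k, hk, hkL⟩ := hS.exists_gt (i + A ^ ((16 * v i) * A ^ (16 * v i)))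
    obtain ⟨rk, dk, pk⟩ := hS1 k hk
    have dk' : g (o k) ≤ v k := by simpa using dk
    have hlk := large _ k rk (by omega : A ^ ((16 * v i) * A ^ (16 * v i)) < k)
    have hvk : 16 * v i ≤ v k := by
      by_contra hc
      have h1 : ex (x k) ≤ (16 * v i) * A ^ (16 * v i) := by
        rw [hov k]
        refine Nat.mul_le_mul ?_ (Nat.pow_le_pow_right (by omega) (by omega))
        have := le_g (o k)
        omega
      omega
    have hN := hM.col i {k} (by simp; omega)
    rw [Finset.prod_singleton] at hN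
    have xk := self_eq (hM.two k) rk
    have eN : x i ^ x k = A ^ (o i * A ^ (o k * A ^ v k + v i)) := by
      conv_lhs => rw [xi, xk, ← pow_mul, hov i, hov k]
      rw [pow_add]
      congr 1
      ring
    have hp0 : P0 A (o i * A ^ (o k * A ^ v k + v i)) (o i) (o k * A ^ v k + v i) :=
      ⟨rfl, hno i, by omega⟩
    have hq1 : Q1 A (o i) (o k * A ^ v k + v i) (o k) (v k) (v i) :=
      ⟨rfl, hno k, hvk, dk', by rw [pi, pk]⟩
    have hT := T.q1 (A := A) _ _ _ _ _ hp0 hq1
    have exk : A ^ (o k * A ^ v k) = x k := by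
      rw [← hov k]; exact xk.symm
    rw [exk] at hT
    have hlt : x k < x i ^ x k := Nat.lt_pow_self (hM.two i)
    rw [eN] at hlt hN
    have hn1 : 1 ≤ o i * A ^ (o k * A ^ v k + v i) :=
      Nat.mul_pos (pos_of_not_dvd (hno i)) (by positivity)
    have := c_eq hA hn1 eA hT hlt
    rw [hN, hM.self k] at this
    cases χ <;> simp at this
  | false =>
    have di' : v i < g (o i) := by simpa using di
    set K := g (o i) with hK
    have hK16 : 16 ≤ K := g_pos (pos_of_not_dvd (hno i))
    have hS2 : (S ∩ {k | i < k}).Infinite := by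
      have : (S \ {k | k ≤ i}).Infinite := hS.sdiff (Set.finite_Iic i)
      refine this.mono ?_
      intro k hk
      exact ⟨hk.1, by have := hk.2; simp at this; exact this⟩
    obtain ⟨ρ, hS3⟩ := pig hS2 (fun k => (⟨ex (x k) % K, Nat.mod_lt _ (by omega)⟩ : Fin K))
    have hS4 : ∀ k ∈ {k ∈ S ∩ {k | i < k} |
        (⟨ex (x k) % K, Nat.mod_lt _ (by omega)⟩ : Fin K) = ρ},
        k ∈ S ∧ i < k ∧ ex (x k) % K = ρ := by
      intro k hk
      refine ⟨hk.1.1, hk.1.2, ?_⟩
      have := hk.2
      rw [← this]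
    generalize {k ∈ S ∩ {k | i < k} |
        (⟨ex (x k) % K, Nat.mod_lt _ (by omega)⟩ : Fin K) = ρ} = S' at hS3 hS4
    obtain ⟨F0, hF0, hF0c⟩ := hS3.exists_subset_card_eq (K - 1)
    set cc := v i + ∑ j ∈ F0, ex (x j) with hcc
    obtain ⟨k, hk, hkL⟩ := hS3.exists_gt (F0.sup id +
      A ^ ((16 * cc) * A ^ (16 * cc) + 16 * cc))
    obtain ⟨hkS, hik, hkm⟩ := hS4 k hk
    obtain ⟨rk, dk, pk⟩ := hS1 k hkS
    have dk' : v k < g (o k) := by simpa using dk
    have xk := self_eq (hM.two k) rk
    have hkF : k ∉ F0 := by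
      intro h
      have := Finset.le_sup (f := id) h
      simp only [id] at this
      omega
    have hlk := large _ k rk
      (by omega : A ^ ((16 * cc) * A ^ (16 * cc) + 16 * cc) < k)
    -- the exponent
    have hmod : (cc + ex (x k)) % K = v i := by
      have h1 : (∑ j ∈ F0, ex (x j)) % K = ((K - 1) * ρ) % K := by
        rw [Finset.sum_nat_mod]
        have : ∀ j ∈ F0, ex (x j) % K = ρ := fun j hj => (hS4 j (hF0 hj)).2.2
        rw [Finset.sum_congr rfl this, Finset.sum_const, hF0c, smul_eq_mul]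
      have h2 : (cc + ex (x k)) % K = (v i + K * ρ) % K := by
        rw [hcc]
        have e1 : (v i + ∑ j ∈ F0, ex (x j) + ex (x k)) ≡ v i + (K - 1) * ρ + ρ [MOD K] := by
          refine Nat.ModEq.add (Nat.ModEq.add_left _ h1) ?_
          show ex (x k) % K = ρ % K
          rw [hkm, Nat.mod_eq_of_lt ρ.2]
        have e2 : v i + (K - 1) * ρ + ρ = v i + K * ρ := by
          have h4 : ∀ z : ℕ, (K - 1) * z + z = K * z := by
            intro z
            calc (K - 1) * z + z = ((K - 1) + 1) * z := by ring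
              _ = K * z := by rw [Nat.sub_add_cancel (by omega)]
          rw [add_assoc, h4]
        rw [← e2]
        exact e1
      rw [h2, Nat.add_mul_mod_self_left, Nat.mod_eq_of_lt di']
    have hVK : K ≤ cc + ex (x k) := by
      have h1 : F0.card ≤ ∑ j ∈ F0, ex (x j) := by
        rw [Finset.card_eq_sum_ones]
        exact Finset.sum_le_sum fun j _ => ex_pos (hM.two j)
      have := ex_pos (hM.two k)
      omega
    -- the number
    have hN := hM.col i (insert k F0) (by
      intro j hj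
      rcases Finset.mem_insert.1 hj with h | h
      · rw [h]; exact hik
      · exact (hS4 j (hF0 h)).2.1)
    have eP : ∏ j ∈ insert k F0, x j = A ^ (ex (x k) + ∑ j ∈ F0, ex (x j)) := by
      rw [Finset.prod_insert hkF, pow_add, ← Finset.prod_pow_eq_pow_sum]
      congr 1
      refine Finset.prod_congr rfl fun j hj => ?_
      exact self_eq (hM.two j) (hS1 j (hS4 j (hF0 hj)).1).1
    have hlt : x i < x i ^ ∏ j ∈ insert k F0, x j := by
      have h1 : 1 < ∏ j ∈ insert k F0, x j := by
        rw [eP]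
        exact Nat.one_lt_pow (by have := ex_pos (hM.two k); omega) hA
      calc x i = x i ^ 1 := (pow_one _).symm
        _ < _ := Nat.pow_lt_pow_right (hM.two i) h1
    have eN : x i ^ ∏ j ∈ insert k F0, x j = A ^ (o i * A ^ (cc + ex (x k))) := by
      rw [eP]
      conv_lhs => rw [xi, ← pow_mul, hov i]
      congr 1
      rw [hcc]
      ring
    have hp0 : P0 A (o i * A ^ (cc + ex (x k))) (o i) (cc + ex (x k)) := ⟨rfl, hno i, hVK⟩
    have hq : ¬ ∃ u M r, Q1 A (o i) (cc + ex (x k)) u M r := by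
      rintro ⟨u, M, r, e, nu, r16, gu, hd⟩
      have huM : u ≤ M := (le_g u).trans gu
      have hu1 := pos_of_not_dvd nu
      have hMc : 16 * cc ≤ M := by
        by_contra hc
        have h1 : u * A ^ M ≤ (16 * cc) * A ^ (16 * cc) :=
          Nat.mul_le_mul (by omega) (Nat.pow_le_pow_right (by omega) (by omega))
        omega
      have g16 := sixteen_mul_le_g u
      by_cases hr : r = cc
      · have hek := hov k
        have h1 : ex (x k) = u * A ^ M := by omega
        rw [h1] at hek
        have := val_unique hA nu (hno k) hek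
        rw [← this.1, ← this.2] at dk'
        omega
      · have hs : (r : ℤ) - cc ≠ 0 := by
          intro h0
          apply hr
          omega
        have hs16 : 16 * |(r : ℤ) - cc| ≤ M := by
          rcases le_total (0 : ℤ) ((r : ℤ) - cc) with h0 | h0
          · rw [abs_of_nonneg h0]; omega
          · rw [abs_of_nonpos h0]; omega
        have ht : (ex (x k) : ℤ) = u * (A : ℤ) ^ M + ((r : ℤ) - cc) := by
          have : ((cc + ex (x k) : ℕ) : ℤ) = ((u * A ^ M + r : ℕ) : ℤ) := by rw [e]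
          push_cast at this
          linarith
        obtain ⟨M', r', hnear⟩ := near_step hA hs nu gu hs16 ht (hov k) (hno k)
        have := dep_eq hA hnear
        rw [pk, ← pi, hd] at this
        cases hdu : dep A u <;> rw [hdu] at this <;> simp at this
    have hT := T.q2 (A := A) _ _ hp0 hq
    rw [← hK, hmod, ← hov i, ← xi] at hT
    rw [eN] at hlt hN
    have hn1 : 1 ≤ o i * A ^ (cc + ex (x k)) :=
      Nat.mul_pos (pos_of_not_dvd (hno i)) (by positivity)
    have := c_eq hA hn1 eA hT hlt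
    rw [hN, hM.self i] at this
    cases χ <;> simp at this

end Pool.Agent.Q16.EI
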