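import Pool.Agent.Q16.EI.CaseA

/-!
The roots of the members of the sequence tend to infinity.
-/

set_option autoImplicit false

namespace Pool.Agent.Q16.EI

/-- If a small multiple of a power of `a` is a small multiple of a high power of `B`, then `a` is
nearly a power of `B`. -/
lemma NS_of {a B c₀ h j m : ℕ} (ha : 2 ≤ a) (hB : 2 ≤ B) (ea : ex a = 1) (eB : ex B = 1)
    (hne : a ≠ B) (hj : 1 ≤ j) (hc : 1 ≤ c₀) (hh : 1 ≤ h) (e : c₀ * a ^ j = h * B ^ m)
    (g1 : g c₀ ≤ m) (g2 : g h ≤ m) (g3 : g B ≤ m) : ∃ M p q, NS a B M p q := by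
  obtain ⟨K, hK1, hK2, hK3, hK4⟩ : ∃ K, c₀ ≤ K ∧ h ≤ K ∧ B ≤ K ∧ g K ≤ m := by
    rcases le_total c₀ h with q1 | q1
    · rcases le_total h B with q2 | q2
      · exact ⟨B, q1.trans q2, q2, le_rfl, g3⟩
      · exact ⟨h, q1, le_rfl, q2, g2⟩
    · rcases le_total c₀ B with q2 | q2
      · exact ⟨B, q2, q1.trans q2, le_rfl, g3⟩
      · exact ⟨c₀, le_rfl, q1, q2, g1⟩
  have hK : 2 ≤ K := hB.trans hK3
  have hjb : j ≤ 2 * K ^ 2 := by
    calc j ≤ (c₀ + h) * B := pow_bound hc hh ha hB ea eB hne e
      _ ≤ (K + K) * K := Nat.mul_le_mul (by omega) hK3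
      _ = 2 * K ^ 2 := by ring
  have hM : 8 * K ^ 6 ≤ m / j := by
    rw [Nat.le_div_iff_mul_le hj]
    calc 8 * K ^ 6 * j ≤ 8 * K ^ 6 * (2 * K ^ 2) := Nat.mul_le_mul_left _ hjb
      _ = g K := by unfold g; ring
      _ ≤ m := hK4
  have hms : j * (m / j) + m % j = m := Nat.div_add_mod m j
  have hs : m % j < j := Nat.mod_lt _ hj
  generalize m / j = M at hM hms
  generalize m % j = s at hms hs
  obtain ⟨p, q, cop, hp, hq⟩ := Nat.exists_coprime a (B ^ M)
  have hd : 0 < Nat.gcd a (B ^ M) := Nat.gcd_pos_of_pos_left _ (by omega)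
  generalize Nat.gcd a (B ^ M) = d at hp hq hd
  have e2 : c₀ * p ^ j = h * B ^ s * q ^ j := by
    have h1 : (c₀ * p ^ j) * d ^ j = (h * B ^ s * q ^ j) * d ^ j := by
      calc (c₀ * p ^ j) * d ^ j = c₀ * (p * d) ^ j := by rw [mul_pow]; ring
        _ = h * B ^ m := by rw [← hp, e]
        _ = h * B ^ s * (B ^ M) ^ j := by rw [← hms, pow_add, ← pow_mul, mul_comm j M]; ring
        _ = (h * B ^ s * q ^ j) * d ^ j := by rw [hq, mul_pow]; ring
    exact Nat.eq_of_mul_eq_mul_right (by positivity) h1
  have copj : Nat.Coprime (p ^ j) (q ^ j) := Nat.Coprime.pow _ _ cop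
  have hpd : p ^ j ∣ h * B ^ s := by
    have : p ^ j ∣ h * B ^ s * q ^ j := by
      rw [← e2]; exact dvd_mul_left _ _
    exact copj.dvd_of_dvd_mul_right this
  have hqd : q ^ j ∣ c₀ := by
    have : q ^ j ∣ c₀ * p ^ j := by
      rw [e2]; exact dvd_mul_left _ _
    exact copj.symm.dvd_of_dvd_mul_right this
  have hp1 : 1 ≤ p := by
    rcases Nat.eq_zero_or_pos p with h0 | h0
    · rw [h0] at hp; omega
    · exact h0
  have hBM : 0 < B ^ M := by positivity
  have hq1 : 1 ≤ q := by
    rcases Nat.eq_zero_or_pos q with h0 | h0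
    · rw [h0] at hq; omega
    · exact h0
  have hple : p ≤ h * B := by
    have h1 : p ^ j ≤ (h * B) ^ j := by
      calc p ^ j ≤ h * B ^ s := Nat.le_of_dvd (by positivity) hpd
        _ ≤ h ^ j * B ^ j := Nat.mul_le_mul (Nat.le_self_pow (by omega) h)
            (Nat.pow_le_pow_right (by omega) hs.le)
        _ = (h * B) ^ j := (mul_pow _ _ _).symm
    exact (Nat.pow_le_pow_iff_left (by omega)).1 h1
  have hqle : q ≤ c₀ := (Nat.le_self_pow (by omega) q).trans (Nat.le_of_dvd (by omega) hqd)
  have hpK : p ≤ K ^ 2 := by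
    calc p ≤ h * B := hple
      _ ≤ K * K := Nat.mul_le_mul hK2 hK3
      _ = K ^ 2 := by ring
  have hK6 : 0 < K ^ 6 := by positivity
  have hK36 : K ^ 3 ≤ K ^ 6 := Nat.pow_le_pow_right (by omega) (by norm_num)
  refine ⟨M, p, q, ?_, hp1, hq1, hB, eB, ?_, ?_, ?_⟩
  · calc q * a = q * (p * d) := by rw [← hp]
      _ = p * (q * d) := by ring
      _ = p * B ^ M := by rw [← hq]
  · have : p ^ 3 ≤ K ^ 6 := by
      calc p ^ 3 ≤ (K ^ 2) ^ 3 := Nat.pow_le_pow_left hpK 3
        _ = K ^ 6 := by ring
    omega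
  · have : q ^ 3 ≤ K ^ 3 := Nat.pow_le_pow_left (hqle.trans hK1) 3
    omega
  · have : B ^ 3 ≤ K ^ 3 := Nat.pow_le_pow_left hK3 3
    omega

lemma not_P0 {A B j m : ℕ} (hA : 2 ≤ A) (hB : 2 ≤ B) (eA : ex A = 1) (eB : ex B = 1)
    (hAB : A < B) (hj : 1 ≤ j) (hjB : j < B) (hm : g B ≤ m) :
    ¬ ∃ o V, P0 A (j * B ^ m) o V := by
  rintro ⟨o, V, e, no, gV⟩
  have ho := pos_of_not_dvd no
  have c1 := pow_bound hj ho hB hA eB eA (by omega) e
  have c2 := pow_bound ho hj hA hB eA eB (by omega) e.symm
  rcases le_total o B with h | h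
  · have h1 : (j + o) * A ≤ 2 * B ^ 2 := by
      calc (j + o) * A ≤ (B + B) * B := Nat.mul_le_mul (by omega) hAB.le
        _ = 2 * B ^ 2 := by ring
    have := two_sq_lt_g (show 1 ≤ B by omega)
    omega
  · have h1 : (o + j) * B ≤ 2 * o ^ 2 := by
      calc (o + j) * B ≤ (o + o) * o := Nat.mul_le_mul (by omega) h
        _ = 2 * o ^ 2 := by ring
    have := two_sq_lt_g ho
    omega

/-- Reducing the exponents of the small primes recovers a small number. -/
lemma jj_eq {A n j : ℕ} (hj : 1 ≤ j) (hjA : j < g A)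
    (h : ∀ q < g A, n.factorization q % g A = j.factorization q) : jj A n = j := by
  unfold jj
  have h1 : ∏ q ∈ (Finset.range (g A)).filter Nat.Prime, q ^ (n.factorization q % g A) =
      ∏ q ∈ (Finset.range (g A)).filter Nat.Prime, q ^ j.factorization q := by
    refine Finset.prod_congr rfl fun q hq => ?_
    rw [Finset.mem_filter, Finset.mem_range] at hq
    rw [h q hq.1]
  rw [h1]
  have h2 := Finsupp.prod_of_support_subset j.factorization
    (s := (Finset.range (g A)).filter Nat.Prime) (by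
      intro q hq
      rw [Nat.support_factorization] at hq
      rw [Finset.mem_filter, Finset.mem_range]
      exact ⟨(Nat.le_of_mem_primeFactors hq).trans_lt hjA, Nat.prime_of_mem_primeFactors hq⟩)
    (fun q v => q ^ v) (by simp)
  rw [← h2]
  exact Nat.prod_factorization_pow_eq_self (by omega)

theorem caseB {x : ℕ → ℕ} {χ : Bool} (hM : Mono x χ)
    (hfin : ∀ A, {i | root (x i) = A}.Finite) : False := by
  have rt : ∀ W, ∃ L, ∀ k, L < k → W < root (x k) := by
    intro W
    have h1 : (⋃ A ∈ Set.Iic W, {i | root (x i) = A}).Finite :=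
      (Set.finite_Iic W).biUnion fun A _ => hfin A
    obtain ⟨L, hL⟩ := h1.bddAbove
    refine ⟨L, fun k hk => ?_⟩
    by_contra hc
    have : k ∈ ⋃ A ∈ Set.Iic W, {i | root (x i) = A} := by
      simp only [Set.mem_iUnion, Set.mem_Iic, Set.mem_ofPred_eq]
      exact ⟨root (x k), by omega, rfl⟩
    have := hL this
    omega
  obtain ⟨⟨b1, b2⟩, hS⟩ := pig Set.infinite_univ
    (fun i => (decide (g (root (x i)) ≤ ex (x i)), D (root (x i))))
  have hS1 : ∀ i ∈ {i ∈ Set.univ |
      (decide (g (root (x i)) ≤ ex (x i)), D (root (x i))) = (b1, b2)},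
      decide (g (root (x i)) ≤ ex (x i)) = b1 ∧ D (root (x i)) = b2 := by
    intro i hi
    have h2 := hi.2
    simp only [Prod.mk.injEq] at h2
    exact ⟨h2.1, h2.2⟩
  generalize {i ∈ Set.univ |
      (decide (g (root (x i)) ≤ ex (x i)), D (root (x i))) = (b1, b2)} = S at hS hS1
  obtain ⟨i, hi⟩ := hS.nonempty
  obtain ⟨di, pi⟩ := hS1 i hi
  have xi := self_eq (hM.two i) rfl
  have hA : 2 ≤ root (x i) := two_le_root (hM.two i)
  have eA : ex (root (x i)) = 1 := ex_root (hM.two i)
  have hj : 1 ≤ ex (x i) := ex_pos (hM.two i)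
  generalize hAd : root (x i) = A at *
  generalize hjd : ex (x i) = j at *
  cases b1 with
  | true =>
    obtain ⟨L, hL⟩ := rt (A + g j)
    obtain ⟨k, hk, hkL⟩ := hS.exists_gt (i + L)
    obtain ⟨dk, pk⟩ := hS1 k hk
    have hbig := hL k (by omega)
    have xk := self_eq (hM.two k) rfl
    have hB : 2 ≤ root (x k) := two_le_root (hM.two k)
    have eB : ex (root (x k)) = 1 := ex_root (hM.two k)
    generalize root (x k) = B at *
    generalize ex (x k) = m at *
    have dk' : g B ≤ m := by simpa using dk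
    have hjg := le_g j
    have hBg := le_g B
    have hN := hM.col i {k} (by simp; omega)
    rw [Finset.prod_singleton] at hN
    have eN : x i ^ x k = A ^ (j * B ^ m) := by
      conv_lhs => rw [xi, ← pow_mul, xk]
    have h0 := not_P0 hA hB eA eB (by omega) hj (by omega : j < B) dk'
    have hs1 : S1 A (j * B ^ m) j B m :=
      ⟨rfl, hB, eB, Nat.not_dvd_of_pos_of_lt hj (by omega), by omega, dk', by rw [pi, pk]⟩
    have hT := T.s1 _ _ _ h0 hs1
    rw [← xk] at hT
    have hlt : x k < x i ^ x k := Nat.lt_pow_self (hM.two i)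
    rw [eN] at hlt hN
    have hn1 : 1 ≤ j * B ^ m := Nat.mul_pos hj (by positivity)
    rw [← xk] at hn1 hlt hN
    have := c_eq hA hn1 eA hT hlt
    rw [hN, hM.self k] at this
    cases χ <;> simp at this
  | false =>
    have di' : j < g A := by simpa using di
    set K := g A with hK
    have hK16 : 16 ≤ K := g_pos (by omega)
    have hS2 : (S ∩ {k | i < k}).Infinite := by
      have : (S \ {k | k ≤ i}).Infinite := hS.sdiff (Set.finite_Iic i)
      refine this.mono ?_
      intro k hk
      exact ⟨hk.1, by have := hk.2; simp at this; exact this⟩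
    obtain ⟨ρ, hS3⟩ := pig hS2 (fun k => fun q : Fin K =>
      (⟨(x k).factorization q % K, Nat.mod_lt _ (by omega)⟩ : Fin K))
    have hS4 : ∀ k ∈ {k ∈ S ∩ {k | i < k} | (fun q : Fin K =>
        (⟨(x k).factorization q % K, Nat.mod_lt _ (by omega)⟩ : Fin K)) = ρ},
        k ∈ S ∧ i < k ∧ ∀ q : Fin K, (x k).factorization q % K = ρ q := by
      intro k hk
      refine ⟨hk.1.1, hk.1.2, ?_⟩
      have := hk.2
      intro q
      rw [← this]
    generalize {k ∈ S ∩ {k | i < k} | (fun q : Fin K =>
        (⟨(x k).factorization q % K, Nat.mod_lt _ (by omega)⟩ : Fin K)) = ρ} = S' at hS3 hS4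
    obtain ⟨F0, hF0, hF0c⟩ := hS3.exists_subset_card_eq (K - 1)
    set c₀ := j * ∏ l ∈ F0, x l with hc₀
    have hprod : 0 < ∏ l ∈ F0, x l := by
      apply Finset.prod_pos
      intro l _
      have := hM.two l
      omega
    have hc1 : 1 ≤ c₀ := Nat.mul_pos hj hprod
    obtain ⟨L, hL⟩ := rt (c₀ + A)
    obtain ⟨k, hk, hkL⟩ := hS3.exists_gt (F0.sup id + L +
      ((g c₀ + K) * A ^ (g c₀ + K) + g c₀ * (g c₀) ^ (g c₀)))
    obtain ⟨hkS, hik, hkm⟩ := hS4 k hk
    obtain ⟨dk, pk⟩ := hS1 k hkS
    have hkF : k ∉ F0 := by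
      intro h
      have := Finset.le_sup (f := id) h
      simp only [id] at this
      omega
    have hbig := hL k (by omega)
    have hxk : k ≤ c₀ * x k := (hM.le k).trans (Nat.le_mul_of_pos_left _ hc1)
    have xk := self_eq (hM.two k) rfl
    have ha : 2 ≤ root (x k) := two_le_root (hM.two k)
    have ea : ex (root (x k)) = 1 := ex_root (hM.two k)
    have hjk : 1 ≤ ex (x k) := ex_pos (hM.two k)
    have dk' : ex (x k) < g (root (x k)) := by simpa using dk
    -- the number
    have hN := hM.col i (insert k F0) (by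
      intro l hl
      rcases Finset.mem_insert.1 hl with h | h
      · rw [h]; exact hik
      · exact (hS4 l (hF0 h)).2.1)
    have hlt : x i < x i ^ ∏ l ∈ insert k F0, x l := by
      have h1 : 1 < ∏ l ∈ insert k F0, x l := by
        rw [Finset.prod_insert hkF]
        have := hM.two k
        nlinarith
      calc x i = x i ^ 1 := (pow_one _).symm
        _ < _ := Nat.pow_lt_pow_right (hM.two i) h1
    have eN : x i ^ ∏ l ∈ insert k F0, x l = A ^ (c₀ * x k) := by
      rw [Finset.prod_insert hkF]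
      conv_lhs => rw [xi, ← pow_mul]
      congr 1
      rw [hc₀]; ring
    -- the exponents of small primes
    have hfac : ∀ q < K, (c₀ * x k).factorization q % K = j.factorization q := by
      intro q hq
      have h1 : (c₀ * x k).factorization q =
          j.factorization q + ∑ l ∈ insert k F0, (x l).factorization q := by
        have hx0 : x k ≠ 0 := by have := hM.two k; omega
        rw [hc₀, Nat.factorization_mul (by omega) hx0, Nat.factorization_mul (by omega) (by omega),
          Nat.factorization_prod (fun l _ => by have := hM.two l; omega),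
          Finset.sum_insert hkF]
        simp only [Finsupp.add_apply, Finsupp.finsetSum_apply]
        ring
      have h2 : ∀ l ∈ insert k F0, (x l).factorization q % K = (ρ ⟨q, hq⟩ : ℕ) := by
        intro l hl
        rcases Finset.mem_insert.1 hl with h | h
        · rw [h]; exact hkm ⟨q, hq⟩
        · exact (hS4 l (hF0 h)).2.2 ⟨q, hq⟩
      have h3 : (∑ l ∈ insert k F0, (x l).factorization q) % K = 0 := by
        rw [Finset.sum_nat_mod, Finset.sum_congr rfl h2, Finset.sum_const,
          Finset.card_insert_of_notMem hkF, hF0c, smul_eq_mul, Nat.sub_add_cancel (by omega),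
          Nat.mul_mod_right]
      rw [h1, Nat.add_mod, h3, add_zero, Nat.mod_mod]
      apply Nat.mod_eq_of_lt
      have := two_mul_factorization_le hj q
      omega
    have hjj : jj A (c₀ * x k) = j := jj_eq hj di' hfac
    have h0 : ¬ ∃ o V, P0 A (c₀ * x k) o V := by
      rintro ⟨o, V, e, no, gV⟩
      have ho := le_g o
      have hV : g c₀ + K ≤ V := by
        by_contra hc
        have : o * A ^ V ≤ (g c₀ + K) * A ^ (g c₀ + K) :=
          Nat.mul_le_mul (by omega) (Nat.pow_le_pow_right (by omega) (by omega))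
        omega
      have e' : c₀ * root (x k) ^ ex (x k) = o * A ^ V := by rw [← xk]; exact e
      obtain ⟨M, p, q, hns⟩ := NS_of ha hA ea eA (by omega) hjk hc1 (pos_of_not_dvd no) e'
        (by omega) gV (by omega)
      have := D_eq hns
      rw [pk, pi] at this
      cases b2 <;> simp at this
    have h1 : ¬ ∃ h B m, S1 A (c₀ * x k) h B m := by
      rintro ⟨h, B, m, e, hB, eB, nB, gh, gB, hD⟩
      have hh := le_g h
      have hBg := le_g B
      have hm : g c₀ ≤ m := by
        by_contra hc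
        have : h * B ^ m ≤ g c₀ * (g c₀) ^ (g c₀) :=
          Nat.mul_le_mul (by omega) ((Nat.pow_le_pow_left (by omega) m).trans
            (Nat.pow_le_pow_right (by omega) (by omega)))
        omega
      have e' : c₀ * root (x k) ^ ex (x k) = h * B ^ m := by rw [← xk]; exact e
      have hne : root (x k) ≠ B := by
        intro hr
        rw [hr] at e' dk' hbig
        obtain ⟨t, ht⟩ := Nat.exists_eq_add_of_lt (dk'.trans_le gB)
        have h2 : c₀ = h * B ^ (t + 1) := by
          have : c₀ * B ^ ex (x k) = (h * B ^ (t + 1)) * B ^ ex (x k) := by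
            rw [e', ht, pow_add, pow_add, pow_add]; ring
          exact Nat.eq_of_mul_eq_mul_right (by positivity) this
        have h3 : B ∣ c₀ := by
          rw [h2]
          exact Dvd.dvd.mul_left (dvd_pow_self B (by omega)) _
        have := Nat.le_of_dvd hc1 h3
        omega
      obtain ⟨M, p, q, hns⟩ := NS_of ha hB ea eB hne hjk hc1 (pos_of_not_dvd nB) e' hm gh gB
      have := D_eq hns
      rw [pk, ← hD, pi] at this
      cases b2 <;> simp at this
    have hT := T.s2 (A := A) h0 h1
    rw [hjj, ← xi] at hT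
    rw [eN] at hlt hN
    have hn1 : 1 ≤ c₀ * x k := Nat.mul_pos hc1 (by have := hM.two k; omega)
    have := c_eq hA hn1 eA hT hlt
    rw [hN, hM.self i] at this
    cases χ <;> simp at this

theorem not_mono {x : ℕ → ℕ} {χ : Bool} (hM : Mono x χ) : False := by
  by_cases h : ∃ A, {i | root (x i) = A}.Infinite
  · obtain ⟨A, hA⟩ := h
    obtain ⟨i, hi⟩ := hA.nonempty
    have h1 : root (x i) = A := hi
    have h2 : 2 ≤ A := by rw [← h1]; exact two_le_root (hM.two i)
    have h3 : ex A = 1 := by rw [← h1]; exact ex_root (hM.two i)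
    exact caseA hM h2 h3 hA
  · push Not at h
    exact caseB hM h

end Pool.Agent.Q16.EI
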