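import Pool.Agent.Q16.EI.Root

/-!
The colouring of the natural numbers and its recursion.
-/

set_option autoImplicit false

namespace Pool.Agent.Q16.EI

/-- A fast function. -/
def g (x : ℕ) : ℕ := 16 * x ^ 8

lemma g_mono {x y : ℕ} (h : x ≤ y) : g x ≤ g y :=
  Nat.mul_le_mul_left _ (Nat.pow_le_pow_left h 8)

lemma sixteen_mul_le_g (x : ℕ) : 16 * x ≤ g x := by
  unfold g
  exact Nat.mul_le_mul_left _ (Nat.le_self_pow (by norm_num) x)

lemma le_g (x : ℕ) : x ≤ g x := by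
  have := sixteen_mul_le_g x
  omega

lemma g_pos {x : ℕ} (h : 1 ≤ x) : 16 ≤ g x := by
  have := sixteen_mul_le_g x
  omega

lemma two_sq_lt_g {x : ℕ} (h : 1 ≤ x) : 2 * x ^ 2 < g x := by
  unfold g
  have h1 : x ^ 2 ≤ x ^ 8 := Nat.pow_le_pow_right h (by norm_num)
  have h2 : 0 < x ^ 8 := by positivity
  omega

/-! ### The first auxiliary parity -/

/-- `o` is near `u * A ^ M`. -/
def Near (A o u M : ℕ) (r : ℤ) : Prop :=
  (o : ℤ) = u * (A : ℤ) ^ M + r ∧ r ≠ 0 ∧ ¬ A ∣ u ∧ 4 * u ≤ M ∧ 4 * |r| ≤ M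

lemma pos_of_not_dvd {A u : ℕ} (h : ¬ A ∣ u) : 1 ≤ u := by
  rcases Nat.eq_zero_or_pos u with h0 | h0
  · exact absurd (h0 ▸ dvd_zero A) h
  · exact h0

lemma sq_lt_pow (M : ℕ) : M ^ 2 + 4 * M < 8 * 2 ^ M := by
  induction M with
  | zero => norm_num
  | succ M ih =>
    rcases Nat.lt_or_ge M 3 with h | h
    · interval_cases M <;> norm_num
    · rw [pow_succ 2 M]
      nlinarith

lemma near_unique {A u₁ u₂ M₁ M₂ : ℕ} {r₁ r₂ : ℤ} (hA : 2 ≤ A)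
    (h : (u₁ : ℤ) * (A : ℤ) ^ M₁ + r₁ = u₂ * (A : ℤ) ^ M₂ + r₂)
    (n1 : ¬ A ∣ u₁) (n2 : ¬ A ∣ u₂) (a1 : 4 * u₁ ≤ M₁) (a2 : 4 * u₂ ≤ M₂)
    (b1 : 4 * |r₁| ≤ M₁) (b2 : 4 * |r₂| ≤ M₂) : u₁ = u₂ ∧ M₁ = M₂ ∧ r₁ = r₂ := by
  have main : ∀ (u₁ u₂ M₁ M₂ : ℕ) (r₁ r₂ : ℤ),
      (u₁ : ℤ) * (A : ℤ) ^ M₁ + r₁ = u₂ * (A : ℤ) ^ M₂ + r₂ → ¬ A ∣ u₁ → ¬ A ∣ u₂ →
      4 * u₁ ≤ M₁ → 4 * u₂ ≤ M₂ → 4 * |r₁| ≤ M₁ → 4 * |r₂| ≤ M₂ → M₁ ≤ M₂ →
      u₁ = u₂ ∧ M₁ = M₂ ∧ r₁ = r₂ := by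
    intro u₁ u₂ M₁ M₂ r₁ r₂ h n1 n2 a1 a2 b1 b2 hle
    by_cases hr : r₁ = r₂
    · subst hr
      have h2 : (u₁ : ℤ) * (A : ℤ) ^ M₁ = u₂ * (A : ℤ) ^ M₂ := by linarith
      have h3 : u₁ * A ^ M₁ = u₂ * A ^ M₂ := by exact_mod_cast h2
      have := val_unique hA n1 n2 h3
      exact ⟨this.1, this.2, rfl⟩
    · exfalso
      have hu2 := pos_of_not_dvd n2
      obtain ⟨d, hd⟩ := Nat.exists_eq_add_of_le hle
      have h4 : ((u₁ : ℤ) - u₂ * (A : ℤ) ^ d) * (A : ℤ) ^ M₁ = r₂ - r₁ := by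
        rw [hd, pow_add] at h
        linear_combination h
      have h5 : (A : ℤ) ^ M₁ ≤ |r₂ - r₁| := by
        apply Int.le_of_dvd (abs_pos.2 (by intro h0; apply hr; linarith))
        rw [dvd_abs]
        exact ⟨_, by rw [← h4, mul_comm]⟩
      have h6 : |r₂ - r₁| ≤ |r₂| + |r₁| := abs_sub _ _
      have hM : (M₁ : ℤ) ≤ M₂ := by exact_mod_cast hle
      have h7 : 2 * (A : ℤ) ^ M₁ ≤ M₂ := by linarith
      have h8 : (2 : ℤ) ^ M₂ ≤ (A : ℤ) ^ M₂ :=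
        pow_le_pow_left₀ (by norm_num) (by exact_mod_cast hA) _
      have h9 : (A : ℤ) ^ M₂ ≤ u₂ * (A : ℤ) ^ M₂ := by
        have : (1 : ℤ) ≤ u₂ := by exact_mod_cast hu2
        have h0 : (0 : ℤ) ≤ (A : ℤ) ^ M₂ := by positivity
        nlinarith
      have h10 : (u₂ : ℤ) * (A : ℤ) ^ M₂ ≤ u₁ * (A : ℤ) ^ M₁ + |r₂ - r₁| := by
        have := neg_abs_le (r₂ - r₁)
        linarith
      have h11 : 4 * (u₁ : ℤ) ≤ M₂ := by
        have : 4 * u₁ ≤ M₂ := a1.trans hle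
        exact_mod_cast this
      have h12 : 8 * ((u₁ : ℤ) * (A : ℤ) ^ M₁) ≤ (M₂ : ℤ) ^ 2 := by
        have e1 : (0 : ℤ) ≤ u₁ := by positivity
        have e2 : (0 : ℤ) ≤ (A : ℤ) ^ M₁ := by positivity
        have e3 : (4 * (u₁ : ℤ)) * (2 * (A : ℤ) ^ M₁) ≤ M₂ * M₂ :=
          mul_le_mul h11 h7 (by positivity) (by positivity)
        nlinarith
      have h13 : (M₂ : ℤ) ^ 2 + 4 * M₂ < 8 * 2 ^ M₂ := by exact_mod_cast sq_lt_pow M₂
      linarith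
  rcases le_total M₁ M₂ with hle | hle
  · exact main _ _ _ _ _ _ h n1 n2 a1 a2 b1 b2 hle
  · have := main _ _ _ _ _ _ h.symm n2 n1 a2 a1 b2 b1 hle
    exact ⟨this.1.symm, this.2.1.symm, this.2.2.symm⟩

lemma near_lt {A o u M : ℕ} {r : ℤ} (hA : 2 ≤ A) (h : Near A o u M r) : u < o := by
  obtain ⟨h1, _, h3, h4, h5⟩ := h
  have hu := pos_of_not_dvd h3
  have h6 : (2 : ℤ) ^ M ≤ (A : ℤ) ^ M :=
    pow_le_pow_left₀ (by norm_num) (by exact_mod_cast hA) _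
  have h7 : M < 2 ^ M := Nat.lt_two_pow_self
  have h7' : (M : ℤ) < 2 ^ M := by exact_mod_cast h7
  have h8 : -|r| ≤ r := neg_abs_le r
  have h9 : (A : ℤ) ^ M ≤ u * (A : ℤ) ^ M := by
    have : (1 : ℤ) ≤ u := by exact_mod_cast hu
    have h0 : (0 : ℤ) ≤ (A : ℤ) ^ M := by positivity
    nlinarith
  have h4' : 4 * (u : ℤ) ≤ M := by exact_mod_cast h4
  have : (u : ℤ) < o := by linarith
  exact_mod_cast this

open Classical in
/-- The parity of the depth of `o` under the relation `Near`. -/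
noncomputable def dep (A o : ℕ) : Bool :=
  if h : ∃ u, u < o ∧ ∃ M r, Near A o u M r then !(dep A h.choose) else false
termination_by o
decreasing_by exact h.choose_spec.1

lemma dep_eq {A o u M : ℕ} {r : ℤ} (hA : 2 ≤ A) (h : Near A o u M r) : dep A o = !(dep A u) := by
  have hex : ∃ u, u < o ∧ ∃ M r, Near A o u M r := ⟨u, near_lt hA h, M, r, h⟩
  rw [dep, dif_pos hex]
  obtain ⟨_, M', r', h'⟩ := hex.choose_spec
  have e := near_unique hA (h'.1.symm.trans h.1) h'.2.2.1 h.2.2.1 h'.2.2.2.1 h.2.2.2.1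
    h'.2.2.2.2 h.2.2.2.2
  rw [e.1]

/-! ### The second auxiliary parity -/

/-- `a` is nearly a power of `B`. -/
def NS (a B m p q : ℕ) : Prop :=
  q * a = p * B ^ m ∧ 1 ≤ p ∧ 1 ≤ q ∧ 2 ≤ B ∧ ex B = 1 ∧ 2 * p ^ 3 < m ∧ 2 * q ^ 3 < m ∧
    2 * B ^ 3 < m

lemma three_mul_lt {X Y Z m : ℕ} (h1 : 2 * X ^ 3 < m) (h2 : 2 * Y ^ 3 < m) (h3 : 2 * Z ^ 3 < m) :
    2 * (X * Y * Z) < m := by
  have key : ∀ W, X ≤ W → Y ≤ W → Z ≤ W → 2 * W ^ 3 < m → 2 * (X * Y * Z) < m := by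
    intro W a b c h
    have : X * Y * Z ≤ W * W * W := Nat.mul_le_mul (Nat.mul_le_mul a b) c
    have e : W ^ 3 = W * W * W := by ring
    rw [e] at h
    omega
  rcases le_total X Y with a | a
  · rcases le_total Y Z with b | b
    · exact key Z (a.trans b) b le_rfl h3
    · exact key Y a le_rfl b h2
  · rcases le_total X Z with b | b
    · exact key Z b (a.trans b) le_rfl h3
    · exact key X le_rfl a b h1

lemma NS_unique {a B₁ m₁ p₁ q₁ B₂ m₂ p₂ q₂ : ℕ} (h1 : NS a B₁ m₁ p₁ q₁)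
    (h2 : NS a B₂ m₂ p₂ q₂) : B₁ = B₂ := by
  have main : ∀ {B₁ m₁ p₁ q₁ B₂ m₂ p₂ q₂ : ℕ}, NS a B₁ m₁ p₁ q₁ → NS a B₂ m₂ p₂ q₂ →
      m₂ ≤ m₁ → B₁ = B₂ := by
    intro B₁ m₁ p₁ q₁ B₂ m₂ p₂ q₂ h1 h2 hle
    obtain ⟨e1, p1, q1, b1, x1, i1, j1, k1⟩ := h1
    obtain ⟨e2, p2, q2, b2, x2, i2, j2, k2⟩ := h2
    by_contra hne
    have e3 : (q₂ * p₁) * B₁ ^ m₁ = (q₁ * p₂) * B₂ ^ m₂ := by
      calc (q₂ * p₁) * B₁ ^ m₁ = q₂ * (p₁ * B₁ ^ m₁) := by ring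
        _ = q₁ * (q₂ * a) := by rw [← e1]; ring
        _ = (q₁ * p₂) * B₂ ^ m₂ := by rw [e2]; ring
    have h3 := pow_bound (Nat.mul_pos q2 p1) (Nat.mul_pos q1 p2) b1 b2 x1 x2 hne e3
    have h4 : 2 * (q₂ * p₁ * B₂) < m₁ := three_mul_lt (by omega) i1 (by omega)
    have h5 : 2 * (q₁ * p₂ * B₂) < m₁ := three_mul_lt j1 (by omega) (by omega)
    rw [add_mul] at h3
    omega
  rcases le_total m₂ m₁ with hle | hle
  · exact main h1 h2 hle
  · exact (main h2 h1 hle).symm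

lemma NS_lt {a B m p q : ℕ} (h : NS a B m p q) : B < a := by
  obtain ⟨e1, p1, q1, b1, x1, i1, j1, k1⟩ := h
  by_contra hc
  have hm : 1 ≤ m := by omega
  have h1 : B ^ m ≤ q * B := by
    calc B ^ m ≤ p * B ^ m := Nat.le_mul_of_pos_left _ p1
      _ = q * a := e1.symm
      _ ≤ q * B := Nat.mul_le_mul_left _ (by omega)
  obtain ⟨m', rfl⟩ := Nat.exists_eq_add_of_le' hm
  have h2 : B ^ m' ≤ q := by
    rw [pow_succ] at h1
    exact Nat.le_of_mul_le_mul_right h1 (by omega)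
  have h3 : m' < B ^ m' := Nat.lt_pow_self b1
  have h4 : q ≤ q ^ 3 := Nat.le_self_pow (by norm_num) q
  omega

open Classical in
/-- The parity of the depth of `a` under the relation `NS`. -/
noncomputable def D (a : ℕ) : Bool :=
  if h : ∃ B, B < a ∧ ∃ m p q, NS a B m p q then !(D h.choose) else false
termination_by a
decreasing_by exact h.choose_spec.1

lemma D_eq {a B m p q : ℕ} (h : NS a B m p q) : D a = !(D B) := by
  have hex : ∃ B, B < a ∧ ∃ m p q, NS a B m p q := ⟨B, NS_lt h, m, p, q, h⟩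
  rw [D, dif_pos hex]
  obtain ⟨_, m', p', q', h'⟩ := hex.choose_spec
  rw [NS_unique h' h]

/-! ### The target -/

/-- `n = o * A ^ V` with `V` large in comparison to `o`. -/
def P0 (A n o V : ℕ) : Prop := n = o * A ^ V ∧ ¬ A ∣ o ∧ g o ≤ V

/-- The condition on `V` for the first kind of target. -/
def Q1 (A o V u M r : ℕ) : Prop :=
  V = u * A ^ M + r ∧ ¬ A ∣ u ∧ 16 * r ≤ M ∧ g u ≤ M ∧ dep A o = dep A u

/-- `n` is a small multiple of a high power of a non-power. -/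
def S1 (A n h B m : ℕ) : Prop :=
  n = h * B ^ m ∧ 2 ≤ B ∧ ex B = 1 ∧ ¬ B ∣ h ∧ g h ≤ m ∧ g B ≤ m ∧ D A = D B

/-- The exponents of the small primes in `n` are reduced. -/
def jj (A n : ℕ) : ℕ :=
  ∏ q ∈ (Finset.range (g A)).filter Nat.Prime, q ^ (n.factorization q % g A)

/-- `A ^ n` is coloured against its target. -/
inductive T (A n : ℕ) : ℕ → Prop
  | q1 (o V u M r : ℕ) (h1 : P0 A n o V) (h2 : Q1 A o V u M r) : T A n (A ^ (u * A ^ M))
  | q2 (o V : ℕ) (h1 : P0 A n o V) (h2 : ¬ ∃ u M r, Q1 A o V u M r) :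
      T A n (A ^ (o * A ^ (V % g o)))
  | s1 (h B m : ℕ) (h1 : ¬ ∃ o V, P0 A n o V) (h2 : S1 A n h B m) : T A n (B ^ m)
  | s2 (h1 : ¬ ∃ o V, P0 A n o V) (h2 : ¬ ∃ h B m, S1 A n h B m) : T A n (A ^ jj A n)

lemma P0_unique {A n o V o' V' : ℕ} (hA : 2 ≤ A) (h : P0 A n o V) (h' : P0 A n o' V') :
    o = o' ∧ V = V' :=
  val_unique hA h.2.1 h'.2.1 (h.1.symm.trans h'.1)

lemma Q1_unique {A o V u M r u' M' r' : ℕ} (hA : 2 ≤ A) (h : Q1 A o V u M r)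
    (h' : Q1 A o V u' M' r') : u = u' ∧ M = M' := by
  obtain ⟨e1, n1, r1, g1, _⟩ := h
  obtain ⟨e2, n2, r2, g2, _⟩ := h'
  have e : u * A ^ M + r = u' * A ^ M' + r' := e1.symm.trans e2
  have e' : (u : ℤ) * (A : ℤ) ^ M + (r : ℤ) = u' * (A : ℤ) ^ M' + (r' : ℤ) := by exact_mod_cast e
  have s1 := sixteen_mul_le_g u
  have s2 := sixteen_mul_le_g u'
  have := near_unique hA e' n1 n2 (by omega) (by omega)
    (by rw [abs_of_nonneg (by positivity)]; omega) (by rw [abs_of_nonneg (by positivity)]; omega)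
  exact ⟨this.1, this.2.1⟩

lemma S1_unique {A n h B m h' B' m' : ℕ} (hs : S1 A n h B m) (hs' : S1 A n h' B' m') :
    B ^ m = B' ^ m' := by
  obtain ⟨e1, b1, x1, n1, g1, k1, _⟩ := hs
  obtain ⟨e2, b2, x2, n2, g2, k2, _⟩ := hs'
  have e : h * B ^ m = h' * B' ^ m' := e1.symm.trans e2
  have p1 := pos_of_not_dvd n1
  have p2 := pos_of_not_dvd n2
  by_cases hB : B = B'
  · subst hB
    rw [(val_unique b1 n1 n2 e).2]
  · exfalso
    have c1 := pow_bound p1 p2 b1 b2 x1 x2 hB e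
    have c2 := pow_bound p2 p1 b2 b1 x2 x1 (Ne.symm hB) e.symm
    have key : ∀ K : ℕ, 1 ≤ K → h ≤ K → h' ≤ K → B ≤ K → B' ≤ K → g K ≤ m ∨ g K ≤ m' →
        False := by
      intro K hK a1 a2 a3 a4 hg
      have t := two_sq_lt_g hK
      have t1 : (h + h') * B' ≤ 2 * K ^ 2 := by
        calc (h + h') * B' ≤ (K + K) * K := Nat.mul_le_mul (by omega) a4
          _ = 2 * K ^ 2 := by ring
      have t2 : (h' + h) * B ≤ 2 * K ^ 2 := by
        calc (h' + h) * B ≤ (K + K) * K := Nat.mul_le_mul (by omega) a3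
          _ = 2 * K ^ 2 := by ring
      rcases hg with hg | hg <;> omega
    rcases le_total (max h B) (max h' B') with hm | hm
    · rcases le_total h' B' with hq | hq
      · rw [max_eq_right hq] at hm
        exact key B' (by omega) ((le_max_left _ _).trans hm) hq ((le_max_right _ _).trans hm)
          le_rfl (Or.inr k2)
      · rw [max_eq_left hq] at hm
        exact key h' (by omega) ((le_max_left _ _).trans hm) le_rfl ((le_max_right _ _).trans hm)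
          hq (Or.inr g2)
    · rcases le_total h B with hq | hq
      · rw [max_eq_right hq] at hm
        exact key B (by omega) hq ((le_max_left _ _).trans hm) le_rfl
          ((le_max_right _ _).trans hm) (Or.inl k1)
      · rw [max_eq_left hq] at hm
        exact key h (by omega) le_rfl ((le_max_left _ _).trans hm) hq
          ((le_max_right _ _).trans hm) (Or.inl g1)

lemma T_unique {A n y y' : ℕ} (hA : 2 ≤ A) (h : T A n y) (h' : T A n y') : y = y' := by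
  cases h with
  | q1 o V u M r h1 h2 =>
    cases h' with
    | q1 o' V' u' M' r' h1' h2' =>
      obtain ⟨rfl, rfl⟩ := P0_unique hA h1 h1'
      obtain ⟨rfl, rfl⟩ := Q1_unique hA h2 h2'
      rfl
    | q2 o' V' h1' h2' =>
      obtain ⟨rfl, rfl⟩ := P0_unique hA h1 h1'
      exact absurd ⟨u, M, r, h2⟩ h2'
    | s1 _ _ _ h1' _ => exact absurd ⟨o, V, h1⟩ h1'
    | s2 h1' _ => exact absurd ⟨o, V, h1⟩ h1'
  | q2 o V h1 h2 =>
    cases h' with
    | q1 o' V' u' M' r' h1' h2' =>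
      obtain ⟨rfl, rfl⟩ := P0_unique hA h1 h1'
      exact absurd ⟨u', M', r', h2'⟩ h2
    | q2 o' V' h1' h2' =>
      obtain ⟨rfl, rfl⟩ := P0_unique hA h1 h1'
      rfl
    | s1 _ _ _ h1' _ => exact absurd ⟨o, V, h1⟩ h1'
    | s2 h1' _ => exact absurd ⟨o, V, h1⟩ h1'
  | s1 h B m h1 h2 =>
    cases h' with
    | q1 o' V' u' M' r' h1' h2' => exact absurd ⟨o', V', h1'⟩ h1
    | q2 o' V' h1' h2' => exact absurd ⟨o', V', h1'⟩ h1
    | s1 _ _ _ _ h2' => exact S1_unique h2 h2'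
    | s2 _ h2' => exact absurd ⟨h, B, m, h2⟩ h2'
  | s2 h1 h2 =>
    cases h' with
    | q1 o' V' u' M' r' h1' h2' => exact absurd ⟨o', V', h1'⟩ h1
    | q2 o' V' h1' h2' => exact absurd ⟨o', V', h1'⟩ h1
    | s1 h' B' m' _ h2' => exact absurd ⟨h', B', m', h2'⟩ h2
    | s2 _ _ => rfl

open Classical in
/-- The colouring. -/
noncomputable def c (x : ℕ) : Bool :=
  if h : ∃ y, y < x ∧ T (root x) (ex x) y then !(c h.choose) else true
termination_by x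
decreasing_by exact h.choose_spec.1

lemma c_eq {A n y : ℕ} (hA : 2 ≤ A) (hn : 1 ≤ n) (e : ex A = 1) (h : T A n y) (hy : y < A ^ n) :
    c (A ^ n) = !(c y) := by
  have hr := root_pow_self hA e hn
  have hx := ex_pow_self (A := A) e hn
  have hex : ∃ y, y < A ^ n ∧ T (root (A ^ n)) (ex (A ^ n)) y :=
    ⟨y, hy, by rw [hr, hx]; exact h⟩
  rw [c, dif_pos hex]
  have h3 : T (root (A ^ n)) (ex (A ^ n)) y := by rw [hr, hx]; exact h
  rw [T_unique (by rw [hr]; exact hA) hex.choose_spec.2 h3]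

end Pool.Agent.Q16.EI
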