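import Mathlib

/-!
Every `x ≥ 2` is `root x ^ ex x` where `root x` is not a perfect power.
-/

set_option autoImplicit false

namespace Pool.Agent.Q16.EI

/-- The gcd of the exponents in the prime factorisation of `x`. -/
def ex (x : ℕ) : ℕ := x.primeFactors.gcd x.factorization

/-- The number whose power `x` is, with the largest possible exponent. -/
def root (x : ℕ) : ℕ := ∏ p ∈ x.primeFactors, p ^ (x.factorization p / ex x)

lemma ex_dvd (x p : ℕ) : ex x ∣ x.factorization p := by
  by_cases hp : p ∈ x.primeFactors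
  · exact Finset.gcd_dvd hp
  · have : x.factorization p = 0 := by
      rw [← Nat.support_factorization] at hp
      exact Finsupp.notMem_support_iff.1 hp
    rw [this]
    exact dvd_zero _

lemma ex_pos {x : ℕ} (hx : 2 ≤ x) : 1 ≤ ex x := by
  obtain ⟨p, hp, hpx⟩ := Nat.exists_prime_and_dvd (show x ≠ 1 by omega)
  have h1 : 0 < x.factorization p := hp.factorization_pos_of_dvd (by omega) hpx
  have h2 := ex_dvd x p
  rcases Nat.eq_zero_or_pos (ex x) with h | h
  · rw [h] at h2
    have := Nat.eq_zero_of_zero_dvd h2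
    omega
  · exact h

lemma root_pow {x : ℕ} (hx : 1 ≤ x) : root x ^ ex x = x := by
  unfold root
  rw [← Finset.prod_pow]
  conv_rhs => rw [← Nat.prod_factorization_pow_eq_self (show x ≠ 0 by omega)]
  rw [Finsupp.prod, Nat.support_factorization]
  refine Finset.prod_congr rfl fun p _ => ?_
  rw [← pow_mul, Nat.div_mul_cancel (ex_dvd x p)]

lemma two_le_root {x : ℕ} (hx : 2 ≤ x) : 2 ≤ root x := by
  have h := root_pow (show 1 ≤ x by omega)
  by_contra hc
  have h3 : root x = 0 ∨ root x = 1 := by omega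
  have h4 := ex_pos hx
  rcases h3 with h3 | h3
  · rw [h3, zero_pow (by omega)] at h; omega
  · rw [h3, one_pow] at h; omega

lemma ex_pow {x y : ℕ} (hy : 1 ≤ y) : ex (x ^ y) = ex x * y := by
  unfold ex
  rw [Nat.primeFactors_pow x (by omega), Nat.factorization_pow]
  have : (⇑(y • x.factorization) : ℕ → ℕ) = fun p => y * x.factorization p := by
    funext p; simp
  rw [this, Finset.gcd_mul_left, mul_comm]
  simp

lemma root_pow_eq {x y : ℕ} (hy : 1 ≤ y) : root (x ^ y) = root x := by
  unfold root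
  rw [Nat.primeFactors_pow x (by omega), ex_pow hy, Nat.factorization_pow]
  refine Finset.prod_congr rfl fun p _ => ?_
  have : (y • x.factorization) p = x.factorization p * y := by simp [mul_comm]
  rw [this, Nat.mul_div_mul_right _ _ (by omega)]

lemma ex_root {x : ℕ} (hx : 2 ≤ x) : ex (root x) = 1 := by
  have h1 := ex_pos hx
  have h2 : ex (root x ^ ex x) = ex (root x) * ex x := ex_pow h1
  rw [root_pow (by omega)] at h2
  have : 1 * ex x = ex (root x) * ex x := by omega
  exact (Nat.eq_of_mul_eq_mul_right (by omega) this).symm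

lemma root_self {A : ℕ} (hA : 2 ≤ A) (h : ex A = 1) : root A = A := by
  have := root_pow (show 1 ≤ A by omega)
  rwa [h, pow_one] at this

lemma root_pow_self {A n : ℕ} (hA : 2 ≤ A) (h : ex A = 1) (hn : 1 ≤ n) : root (A ^ n) = A := by
  rw [root_pow_eq hn, root_self hA h]

lemma ex_pow_self {A n : ℕ} (h : ex A = 1) (hn : 1 ≤ n) : ex (A ^ n) = n := by
  rw [ex_pow hn, h, one_mul]

/-- Two non-powers with proportional exponents are equal. -/
lemma eq_of_prop {a B : ℕ} (ha : 2 ≤ a) (hB : 2 ≤ B) (ea : ex a = 1) (eB : ex B = 1)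
    (h : ∀ l l' : ℕ, a.factorization l * B.factorization l' =
      a.factorization l' * B.factorization l) : a = B := by
  obtain ⟨l', hl, hlB⟩ := Nat.exists_prime_and_dvd (show B ≠ 1 by omega)
  have h1 : 0 < B.factorization l' := hl.factorization_pos_of_dvd (by omega) hlB
  have h2 : a ^ B.factorization l' = B ^ a.factorization l' := by
    apply Nat.eq_of_factorization_eq (pow_ne_zero _ (by omega)) (pow_ne_zero _ (by omega))
    intro l
    rw [Nat.factorization_pow, Nat.factorization_pow]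
    have := h l l'
    simp only [Finsupp.coe_smul, Pi.smul_apply, smul_eq_mul]
    rw [mul_comm, this]
  have h3 : 1 ≤ a.factorization l' := by
    by_contra hc
    have : a.factorization l' = 0 := by omega
    rw [this, pow_zero] at h2
    have := Nat.one_lt_pow (show B.factorization l' ≠ 0 by omega) (show 1 < a by omega)
    omega
  have h4 := root_pow_self ha ea (show 1 ≤ B.factorization l' by omega)
  rw [h2, root_pow_self hB eB h3] at h4
  exact h4.symm

lemma two_mul_factorization_le {x : ℕ} (hx : 1 ≤ x) (l : ℕ) : 2 * x.factorization l ≤ x := by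
  by_cases hl : l.Prime
  · have h1 : l ^ x.factorization l ≤ x := Nat.ordProj_le l (by omega)
    have h2 : 2 ^ x.factorization l ≤ l ^ x.factorization l := Nat.pow_le_pow_left hl.two_le _
    have h3 : ∀ v : ℕ, 1 ≤ v → 2 * v ≤ 2 ^ v := by
      intro v hv
      induction v, hv using Nat.le_induction with
      | base => norm_num
      | succ v hv ih => rw [pow_succ]; omega
    rcases Nat.eq_zero_or_pos (x.factorization l) with h0 | h0
    · omega
    · have := h3 _ h0
      omega
  · rw [Nat.factorization_eq_zero_of_not_prime x hl]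
    omega

/-- Multiples of high powers of two different non-powers are different. -/
lemma pow_bound {α β B₁ B₂ m₁ m₂ : ℕ} (hα : 1 ≤ α) (hβ : 1 ≤ β) (h1 : 2 ≤ B₁) (h2 : 2 ≤ B₂)
    (e1 : ex B₁ = 1) (e2 : ex B₂ = 1) (hne : B₁ ≠ B₂) (h : α * B₁ ^ m₁ = β * B₂ ^ m₂) :
    m₁ ≤ (α + β) * B₂ := by
  have h0 : ∃ l l' : ℕ, B₁.factorization l * B₂.factorization l' ≠
      B₁.factorization l' * B₂.factorization l := by
    by_contra hc
    push Not at hc
    exact hne (eq_of_prop h1 h2 e1 e2 hc)
  obtain ⟨l, l', hll⟩ := h0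
  have key : ∀ p : ℕ, α.factorization p + m₁ * B₁.factorization p =
      β.factorization p + m₂ * B₂.factorization p := by
    intro p
    have h5 : (α * B₁ ^ m₁).factorization p = (β * B₂ ^ m₂).factorization p := by rw [h]
    rw [Nat.factorization_mul (by omega) (pow_ne_zero _ (by omega)),
      Nat.factorization_mul (by omega) (pow_ne_zero _ (by omega)),
      Nat.factorization_pow, Nat.factorization_pow] at h5
    simpa using h5
  have k1 := key l
  have k2 := key l'
  have b1 := two_mul_factorization_le hα l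
  have b2 := two_mul_factorization_le hα l'
  have b3 := two_mul_factorization_le hβ l
  have b4 := two_mul_factorization_le hβ l'
  have b5 := two_mul_factorization_le (show 1 ≤ B₂ by omega) l
  have b6 := two_mul_factorization_le (show 1 ≤ B₂ by omega) l'
  generalize α.factorization l = a1 at *
  generalize α.factorization l' = a2 at *
  generalize β.factorization l = a3 at *
  generalize β.factorization l' = a4 at *
  generalize B₂.factorization l = c1 at *
  generalize B₂.factorization l' = c2 at *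
  generalize B₁.factorization l = d1 at *
  generalize B₁.factorization l' = d2 at *
  -- m₁ (d1 c2 - d2 c1) = (a3 - a1) c2 - (a4 - a2) c1
  have e : (m₁ : ℤ) * ((d1 : ℤ) * c2 - d2 * c1) = (a3 - a1) * c2 - (a4 - a2) * c1 := by
    have k1' : (a1 : ℤ) + m₁ * d1 = a3 + m₂ * c1 := by exact_mod_cast k1
    have k2' : (a2 : ℤ) + m₁ * d2 = a4 + m₂ * c2 := by exact_mod_cast k2
    linear_combination (c2 : ℤ) * k1' - c1 * k2'
  have hd : (d1 : ℤ) * c2 - d2 * c1 ≠ 0 := by
    intro h0
    apply hll
    have : (d1 : ℤ) * c2 = d2 * c1 := by linarith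
    exact_mod_cast this
  have hd1 : 1 ≤ |(d1 : ℤ) * c2 - d2 * c1| := Int.one_le_abs hd
  have h6 : (m₁ : ℤ) ≤ |((a3 : ℤ) - a1) * c2 - (a4 - a2) * c1| := by
    rw [← e, abs_mul]
    have : |(m₁ : ℤ)| = m₁ := abs_of_nonneg (by positivity)
    rw [this]
    nlinarith
  have h7 : |((a3 : ℤ) - a1) * c2 - (a4 - a2) * c1| ≤ (a3 + a1) * c2 + (a4 + a2) * c1 := by
    rw [abs_le]
    constructor <;> nlinarith [mul_nonneg (Int.natCast_nonneg a1) (Int.natCast_nonneg c2),
      mul_nonneg (Int.natCast_nonneg a3) (Int.natCast_nonneg c2),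
      mul_nonneg (Int.natCast_nonneg a2) (Int.natCast_nonneg c1),
      mul_nonneg (Int.natCast_nonneg a4) (Int.natCast_nonneg c1)]
  have h8 : m₁ ≤ (a3 + a1) * c2 + (a4 + a2) * c1 := by
    have := h6.trans h7
    exact_mod_cast this
  have h9 : (a3 + a1) * c2 ≤ (a3 + a1) * B₂ := Nat.mul_le_mul_left _ (by omega)
  have h10 : (a4 + a2) * c1 ≤ (a4 + a2) * B₂ := Nat.mul_le_mul_left _ (by omega)
  have h11 : (a3 + a1) * B₂ + (a4 + a2) * B₂ ≤ (α + β) * B₂ := by
    rw [← add_mul]
    exact Nat.mul_le_mul_right _ (by omega)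
  omega

/-- The decomposition `n = o * A ^ V` with `A` not dividing `o` is unique. -/
lemma val_unique {A o₁ o₂ V₁ V₂ : ℕ} (hA : 2 ≤ A) (n1 : ¬ A ∣ o₁) (n2 : ¬ A ∣ o₂)
    (h : o₁ * A ^ V₁ = o₂ * A ^ V₂) : o₁ = o₂ ∧ V₁ = V₂ := by
  have main : ∀ o₁ o₂ V₁ V₂ : ℕ, ¬ A ∣ o₁ → ¬ A ∣ o₂ → o₁ * A ^ V₁ = o₂ * A ^ V₂ → V₁ ≤ V₂ →
      o₁ = o₂ ∧ V₁ = V₂ := by
    intro o₁ o₂ V₁ V₂ n1 _ h hle
    obtain ⟨d, rfl⟩ := Nat.exists_eq_add_of_le hle
    have h2 : o₁ = o₂ * A ^ d := by
      have : o₁ * A ^ V₁ = (o₂ * A ^ d) * A ^ V₁ := by rw [h, pow_add]; ring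
      exact Nat.eq_of_mul_eq_mul_right (by positivity) this
    rcases Nat.eq_zero_or_pos d with h0 | h0
    · subst h0
      simp at h2
      exact ⟨h2, rfl⟩
    · exfalso
      apply n1
      rw [h2]
      exact Dvd.dvd.mul_left (dvd_pow_self A (by omega)) _
  rcases le_total V₁ V₂ with hle | hle
  · exact main _ _ _ _ n1 n2 h hle
  · have := main _ _ _ _ n2 n1 h.symm hle
    exact ⟨this.1.symm, this.2.symm⟩

lemma val_exists {A n : ℕ} (hA : 2 ≤ A) (hn : 1 ≤ n) : ∃ o V, n = o * A ^ V ∧ ¬ A ∣ o := by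
  obtain ⟨e, n', h1, h2⟩ := Nat.exists_eq_pow_mul_and_not_dvd (show n ≠ 0 by omega) A (by omega)
  exact ⟨n', e, by rw [h2]; ring, h1⟩

end Pool.Agent.Q16.EI
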